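import Pool.Agent.Lib.MP_b9d07b_gt.Perturb
import Pool.Agent.Lib.MP_b9d07b_gt.ExVol

set_option autoImplicit false

/-!
# A volume-maximising ideal polyhedron with irrational dihedral angles (`n = 8`)

Full negative answer to Q1 of `MP_b9d07b_gt`. The definitions (Klein model of hyperbolic space, ideal
polyhedra, hyperbolic volume, `Vmax`, dihedral angles) are in `Pool.Agent.Lib.MP_b9d07b_gt.Defs`, the
angle `phi = arcsin ((√13 - 1) / 4)` and the explicit polyhedron `S0` in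
`Pool.Agent.Lib.MP_b9d07b_gt.ExDefs`, the Lobachevsky function
`Lob θ = -∫₀^θ log |2 sin t| dt` in `Pool.Agent.Lib.MP_b9d07b_gt.Lob`.
-/

open Pool.Agent.Lib.MP_b9d07b_gt

namespace Pool.Agent.Results.MP_b9d07b_gt.IrrationalMaximiser

theorem vmax_le : Vmax 8 ≤ ENNReal.ofReal Vstar :=
  iSup_le fun S => vol_le_of_generic (fun _ hS hc => vol_le_Vstar phiFacts hS hc) S.1 S.2

theorem vol_S0_eq : vol S0 = ENNReal.ofReal Vstar :=
  le_antisymm (vol_le_of_generic (fun _ hS hc => vol_le_Vstar phiFacts hS hc) S0 s0Ideal) vol_S0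

theorem vmax_eq : Vmax 8 = ENNReal.ofReal Vstar :=
  le_antisymm vmax_le (vol_S0.trans
    (le_iSup (fun S : {S : Finset E3 // IsIdealPoly 8 S} => vol S) ⟨S0, s0Ideal⟩))

theorem maximising_S0 : IsMaximising 8 S0 := ⟨s0Ideal, vol_S0_eq.trans vmax_eq.symm⟩

/-- Q1 has a negative answer. There is a volume-maximising ideal polyhedron with eight vertices, of
volume `12 Λ(φ) - 2 Λ(3φ)` where `φ = arcsin ((√13 - 1) / 4)`, with an edge whose dihedral angle `θ`
satisfies `cos θ = (√13 - 3) / 4` and is not a rational multiple of `π`. -/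
theorem result : ∃ S : Finset E3, IsMaximising 8 S ∧
    vol S = ENNReal.ofReal (12 * Lob phi - 2 * Lob (3 * phi)) ∧
    ∃ (p q : E3) (θ : ℝ), IsDihedralAngle S p q θ ∧ Real.cos θ = (Real.sqrt 13 - 3) / 4 ∧
      ∀ r : ℚ, θ ≠ r * Real.pi := by
  obtain ⟨-, -, -, -, -, -, -, h7⟩ := phiFacts
  exact ⟨S0, maximising_S0, vol_S0_eq, _, _, _, s0Angle, h7, irrationalAngle _ h7⟩

/-- The statement asked about in Q1 is false. -/
theorem not_all_rational : ¬ ∀ n : ℕ, 4 ≤ n → ∀ S : Finset E3, IsMaximising n S →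
    ∀ (p q : E3) (θ : ℝ), IsDihedralAngle S p q θ → ∃ r : ℚ, θ = r * Real.pi := by
  intro h
  obtain ⟨S, hS, -, p, q, θ, hθ, -, hr⟩ := result
  obtain ⟨r, h1⟩ := h 8 (by norm_num) S hS p q θ hθ
  exact hr r h1

end Pool.Agent.Results.MP_b9d07b_gt.IrrationalMaximiser
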